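import Pool.Agent.FHQ.StmtsO

/-!
# Squad FHQ, row DLG: discrete logarithms modulo `m`
-/

noncomputable section

namespace Pool.Agent.FHQ.H86D

theorem dlg : DlgStmt := by
  intro p hp m hm
  obtain ⟨w, hw⟩ := IsCyclic.exists_generator (α := (ZMod p)ˣ)
  choose l hl using fun a : (ZMod p)ˣ => Subgroup.mem_zpowers_iff.1 (hw a)
  have hm' : (0 : ℤ) < m := by exact_mod_cast hm
  classical
  obtain ⟨L, hL⟩ : ∃ L : ZMod p → ℤ, ∀ a : ZMod p, ∀ h : a ≠ 0, L a = l (Units.mk0 a h) :=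
    ⟨fun a => if h : a ≠ 0 then l (Units.mk0 a h) else 0, fun a h => dif_pos h⟩
  have hb : ∀ a : ZMod p, (L a % (m : ℤ)).toNat < m := by
    intro a
    have h1 := Int.emod_nonneg (L a) hm'.ne'
    have h2 := Int.emod_lt_of_pos (L a) hm'
    omega
  refine ⟨fun a => ⟨(L a % (m : ℤ)).toNat, hb a⟩, ?_⟩
  intro a b ha hb' hab
  have h3 : (L a % (m : ℤ)).toNat = (L b % (m : ℤ)).toNat := congrArg Fin.val hab
  have h4 : L a % (m : ℤ) = L b % (m : ℤ) := by
    have h1 := Int.emod_nonneg (L a) hm'.ne'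
    have h2 := Int.emod_nonneg (L b) hm'.ne'
    omega
  have h5 : (m : ℤ) ∣ L b - L a :=
    Int.dvd_of_emod_eq_zero (by rw [Int.sub_emod, h4, sub_self, Int.zero_emod])
  obtain ⟨t, ht⟩ := h5
  have h7 : L b = L a + t * m := by
    rw [← sub_eq_iff_eq_add']
    rw [ht, mul_comm]
  have h8 : Units.mk0 b hb' = Units.mk0 a ha * (w ^ t) ^ m := by
    rw [← hl (Units.mk0 b hb'), ← hL b hb', h7, zpow_add, zpow_mul, hL a ha,
      hl (Units.mk0 a ha), zpow_natCast]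
  refine ⟨((w ^ t : (ZMod p)ˣ) : ZMod p), Units.ne_zero _, ?_⟩
  have h9 := congrArg (fun u : (ZMod p)ˣ => (u : ZMod p)) h8
  simp only [Units.val_mk0, Units.val_mul, Units.val_pow_eq_pow_val] at h9
  exact h9

end Pool.Agent.FHQ.H86D
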