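import Pool.Agent.FHQ.StmtsP

/-!
# Squad FHQ, row PAS: all the definable families are `PasD`
-/

open scoped BigOperators

noncomputable section

namespace Pool.Agent.FHQ.H86P

open Polynomial

/-- one box -/
theorem ub_box {r : ℕ} (b : Box r) : UB r (fun p a g => b.R p a ∧ b.B g) :=
  ⟨[b], fun p a g => by simp⟩

/-- the box for `P = 0` -/
def box0 : Box 1 where
  R := fun _ x => MvPolynomial.aeval x (MvPolynomial.X 0 : MvPolynomial (Fin 1) ℤ) = 0
  B := fun x => 0 ≤ ∑ i, (0 : Fin 1 → ℤ) i * x i + 0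
  hR := RD.eq _
  hB := PD.le _ _

/-- the box for `rv P = rv Q` -/
def box1 : Box 2 where
  R := fun _ x => (¬ MvPolynomial.aeval x (MvPolynomial.X 0 : MvPolynomial (Fin 2) ℤ) = 0 ∧
    ¬ MvPolynomial.aeval x (MvPolynomial.X 1 : MvPolynomial (Fin 2) ℤ) = 0) ∧
    MvPolynomial.aeval x (MvPolynomial.X 0 - MvPolynomial.X 1 : MvPolynomial (Fin 2) ℤ) = 0
  B := fun x => 0 ≤ ∑ i, (![1, -1] : Fin 2 → ℤ) i * x i + 0 ∧
    0 ≤ ∑ i, (![-1, 1] : Fin 2 → ℤ) i * x i + 0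
  hR := RD.and (RD.and (RD.not (RD.eq _)) (RD.not (RD.eq _))) (RD.eq _)
  hB := PD.and (PD.le _ _) (PD.le _ _)

theorem pas (hPDC : PdcStmt) (hEXQ : ExqStmt) : PasStmt := by
  intro n S hS
  induction hS with
  | eq P =>
    refine ⟨0, 1, fun _ => P, _, ub_box box0, ?_⟩
    intro p _ K _ A _ x
    have h1 := A.ac_zero (MvPolynomial.aeval x P)
    simp [box0, h1]
  | rv P Q =>
    refine ⟨0, 2, ![P, Q], _, ub_box box1, ?_⟩
    intro p _ K _ A _ x
    have h1 := A.ac_zero (MvPolynomial.aeval x P)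
    have h2 := A.ac_zero (MvPolynomial.aeval x Q)
    have h3 : ∀ a b : ℤ, (0 ≤ a + -b ∧ 0 ≤ -a + b) ↔ a = b := fun a b => by omega
    simp only [box1, AcF0.E, map_sub, MvPolynomial.aeval_X, Matrix.cons_val_zero,
      Matrix.cons_val_one, Fin.sum_univ_two, one_mul, neg_mul, add_zero, h1, h2, sub_eq_zero, h3]
    tauto
  | not _ ih => exact (hPDC _ _ _ ih ih).2.2
  | and _ _ ih1 ih2 => exact (hPDC _ _ _ ih1 ih2).2.1
  | ex _ ih => exact hEXQ _ _ ih

end Pool.Agent.FHQ.H86P
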