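import Pool.Agent.FHQ.StmtsU

/-!
# Squad FHQ, row RDP: partial isomorphisms preserve the ring definable families
-/

open scoped BigOperators

noncomputable section

namespace Pool.Agent.FHQ.H86

open Polynomial

section

variable (p : ℕ → ℕ) [∀ i, Fact (p i).Prime] (U : Ultrafilter ℕ)

/-- choice of witnesses -/
theorem choose_ev {Z : ℕ → Type} [∀ i, Inhabited (Z i)] {C : ∀ i, Z i → Prop}
    (h : ∀ᶠ i in (U : Filter ℕ), ∃ z, C i z) : ∃ z : ∀ i, Z i, ∀ᶠ i in (U : Filter ℕ), C i (z i) := by
  classical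
  refine ⟨fun i => if h : ∃ z, C i z then h.choose else default, h.mono fun i hi => ?_⟩
  beta_reduce
  rw [dif_pos hi]
  exact hi.choose_spec

theorem aev {n : ℕ} {A B : Type} [CommRing A] [CommRing B] (φ : A →+* B) (f : Fin n → A)
    (P : MvPolynomial (Fin n) ℤ) :
    MvPolynomial.aeval (fun j => φ (f j)) P = φ (MvPolynomial.aeval f P) := by
  have h := MvPolynomial.comp_aeval (R := ℤ) f (RingHom.toIntAlgHom φ)
  exact (DFunLike.congr_fun h P).symm

theorem cons_apply {n : ℕ} (y : ∀ i, ZMod (p i)) (a : Fin n → ∀ i, ZMod (p i)) (i : ℕ) :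
    (fun j => (Fin.cons y a : Fin (n + 1) → ∀ i, ZMod (p i)) j i) =
      Fin.cons (y i) (fun j => a j i) := by
  funext j
  induction j using Fin.cases with
  | zero => rfl
  | succ j => rfl

end

theorem rdp (hBF : BfStmt) (hPIS : PisStmt) (hBAS : BasStmt) : RdpStmt := by
  intro p _ U hi hp n S hS
  obtain ⟨-, -, -, hfix, hring, hone, hzero, heq⟩ := hBAS p U hp
  -- the ring homomorphism
  let φ : (∀ i, ZMod (p i)) →+* UF p U :=
    { toFun := emb p U
      map_one' := hone
      map_mul' := fun x y => (hring x y).2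
      map_zero' := hzero
      map_add' := fun x y => (hring x y).1 }
  have hφ : ∀ x, φ x = emb p U x := fun _ => rfl
  induction hS with
  | eq P =>
    intro K1 K2 θ hPI a a' haa
    choose h hθ using haa
    have key : ∀ b : Fin _ → ∀ i, ZMod (p i), (∀ᶠ i in (U : Filter ℕ),
        MvPolynomial.aeval (fun j => b j i) P = 0) ↔
        MvPolynomial.aeval (fun j => emb p U (b j)) P = 0 := by
      intro b
      have h1 : ∀ i, MvPolynomial.aeval (fun j => b j i) P = (MvPolynomial.aeval b P) i := by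
        intro i
        exact aev (Pi.evalRingHom (fun i => ZMod (p i)) i) b P
      have h3 : MvPolynomial.aeval (fun j => emb p U (b j)) P = φ (MvPolynomial.aeval b P) :=
        aev φ b P
      rw [h3, hφ, ← hzero, heq]
      constructor
      · intro h
        exact h.mono fun i hi => by rw [← h1]; exact hi
      · intro h
        exact h.mono fun i hi => by rw [h1]; exact hi
    rw [key, key]
    -- transport with `θ`
    have e1 : MvPolynomial.aeval (fun j => emb p U (a j)) P =
        K1.subtype (MvPolynomial.aeval (fun j => (⟨emb p U (a j), h j⟩ : K1)) P) :=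
      aev K1.subtype (fun j => (⟨emb p U (a j), h j⟩ : K1)) P
    have e2 : MvPolynomial.aeval (fun j => emb p U (a' j)) P =
        K2.subtype (θ (MvPolynomial.aeval (fun j => (⟨emb p U (a j), h j⟩ : K1)) P)) := by
      have h4 := aev (K2.subtype.comp (θ : K1 →+* K2)) (fun j => (⟨emb p U (a j), h j⟩ : K1)) P
      have h5 : (fun j => (K2.subtype.comp (θ : K1 →+* K2)) (⟨emb p U (a j), h j⟩ : K1)) =
          fun j => emb p U (a' j) := by
        funext j
        exact hθ j
      rw [h5] at h4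
      exact h4
    rw [e1, e2]
    constructor
    · intro h6
      have h7 : MvPolynomial.aeval (fun j => (⟨emb p U (a j), h j⟩ : K1)) P = 0 :=
        Subtype.ext h6
      rw [h7, map_zero, map_zero]
    · intro h6
      have h7 : θ (MvPolynomial.aeval (fun j => (⟨emb p U (a j), h j⟩ : K1)) P) = 0 :=
        Subtype.ext h6
      have h8 : MvPolynomial.aeval (fun j => (⟨emb p U (a j), h j⟩ : K1)) P = 0 := by
        apply θ.injective
        rw [h7, map_zero]
      rw [h8, map_zero]
  | not _ ih =>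
    intro K1 K2 θ hPI a a' haa
    rw [Ultrafilter.eventually_not, Ultrafilter.eventually_not, ih K1 K2 θ hPI a a' haa]
  | and _ _ ih1 ih2 =>
    intro K1 K2 θ hPI a a' haa
    rw [Filter.eventually_and, Filter.eventually_and, ih1 K1 K2 θ hPI a a' haa,
      ih2 K1 K2 θ hPI a a' haa]
  | @ex n S _ ih =>
    have one : ∀ (K1 K2 : Subfield (UF p U)) (θ : K1 ≃+* K2), PI p U K1 K2 θ →
        ∀ a a' : Fin n → ∀ i, ZMod (p i), (∀ j, ∃ h : emb p U (a j) ∈ K1,
          ((θ ⟨emb p U (a j), h⟩ : K2) : UF p U) = emb p U (a' j)) →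
        (∀ᶠ i in (U : Filter ℕ), ∃ y, S (p i) (Fin.cons y (fun j => a j i))) →
          ∀ᶠ i in (U : Filter ℕ), ∃ y, S (p i) (Fin.cons y (fun j => a' j i)) := by
      intro K1 K2 θ hPI a a' haa hex
      obtain ⟨y, hy⟩ := choose_ev U (Z := fun i => ZMod (p i)) hex
      obtain ⟨K1', K2', θ', hPI', ⟨hle, hext⟩, hyK⟩ := hBF p U hi hp K1 K2 θ hPI y
      -- the image of `y`
      have hfy : Ph p U (emb p U y) = emb p U y := (hfix _).2 ⟨y, rfl⟩
      obtain ⟨hst, hst'⟩ := hPI'.st ⟨emb p U y, hyK⟩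
      have h1 : (⟨Ph p U ((⟨emb p U y, hyK⟩ : K1') : UF p U), hst⟩ : K1') =
          ⟨emb p U y, hyK⟩ := Subtype.ext hfy
      rw [h1] at hst'
      obtain ⟨y', hy'⟩ := (hfix _).1 hst'.symm
      have h2 := (ih K1' K2' θ' hPI' (Fin.cons y a) (Fin.cons y' a') (by
        intro j
        induction j using Fin.cases with
        | zero => exact ⟨hyK, hy'.symm⟩
        | succ j =>
          obtain ⟨h, hθ⟩ := haa j
          exact ⟨hle h, (hext ⟨emb p U (a j), h⟩).trans hθ⟩)).1 (by
        refine hy.mono fun i h3 => ?_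
        rw [cons_apply]
        exact h3)
      refine h2.mono fun i h3 => ⟨y' i, ?_⟩
      rw [cons_apply] at h3
      exact h3
    intro K1 K2 θ hPI a a' haa
    refine ⟨one K1 K2 θ hPI a a' haa, one K2 K1 θ.symm (hPIS p U K1 K2 θ hPI) a' a ?_⟩
    intro j
    obtain ⟨h, hθ⟩ := haa j
    have h1 : emb p U (a' j) ∈ K2 := by
      rw [← hθ]
      exact (θ ⟨emb p U (a j), h⟩).2
    refine ⟨h1, ?_⟩
    have h2 : (⟨emb p U (a' j), h1⟩ : K2) = θ ⟨emb p U (a j), h⟩ := Subtype.ext hθ.symm
    rw [h2, RingEquiv.symm_apply_apply]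

end Pool.Agent.FHQ.H86
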