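import Pool.Agent.FHQ.StmtsG

/-!
# Squad FHQ, row SUP: from `e`-tuples to `k`-tuples
-/

open scoped BigOperators

noncomputable section

namespace Pool.Agent.FHQ.H86S

/-- the number of functions whose restriction along an injection is in a given set -/
theorem fibreCount {ι κ A : Type} [Fintype ι] [Fintype κ] [Fintype A] [DecidableEq κ] (φ : ι → κ)
    (hφ : Function.Injective φ) (F : Set (ι → A)) [DecidablePred (fun G : κ → A => G ∘ φ ∈ F)] :
    (Finset.univ.filter (fun G : κ → A => G ∘ φ ∈ F)).card * Fintype.card A ^ Fintype.card ι =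
      F.ncard * Fintype.card A ^ Fintype.card κ := by
  classical
  let C : Type := {x : κ // x ∉ Set.range φ}
  let e1 : κ ≃ ι ⊕ C :=
    (Equiv.Set.sumCompl (Set.range φ)).symm.trans
      (Equiv.sumCongr (Equiv.ofInjective φ hφ).symm (Equiv.refl _))
  have he1 : ∀ i, e1.symm (Sum.inl i) = φ i := by
    intro i
    simp [e1]
  let e2 : (κ → A) ≃ (ι → A) × (C → A) :=
    (Equiv.arrowCongr e1 (Equiv.refl A)).trans (Equiv.sumArrowEquivProdArrow ι C A)
  have he2 : ∀ G : κ → A, (e2 G).1 = G ∘ φ := by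
    intro G
    funext i
    simp [e2, Equiv.sumArrowEquivProdArrow, he1]
  have hcard : (Finset.univ.filter (fun G : κ → A => G ∘ φ ∈ F)).card =
      F.ncard * Fintype.card (C → A) := by
    have h1 : (Finset.univ.filter (fun G : κ → A => G ∘ φ ∈ F)).card =
        (F.toFinset ×ˢ (Finset.univ : Finset (C → A))).card := by
      apply Finset.card_bij' (fun G _ => e2 G) (fun q _ => e2.symm q)
      · intro G hG
        simp only [Finset.mem_filter, Finset.mem_univ, true_and] at hG
        simp only [Finset.mem_product, Set.mem_toFinset, Finset.mem_univ, and_true]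
        rw [he2]
        exact hG
      · intro q hq
        simp only [Finset.mem_product, Set.mem_toFinset, Finset.mem_univ, and_true] at hq
        simp only [Finset.mem_filter, Finset.mem_univ, true_and]
        rw [← he2, Equiv.apply_symm_apply]
        exact hq
      · intro G _
        exact e2.symm_apply_apply G
      · intro q _
        exact e2.apply_symm_apply q
    rw [h1, Finset.card_product, Finset.card_univ, Set.ncard_eq_toFinset_card']
  have hC : Fintype.card κ = Fintype.card C + Fintype.card ι := by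
    rw [Fintype.card_congr e1, Fintype.card_sum, add_comm]
  rw [hcard, Fintype.card_fun, hC, pow_add]
  ring

/-- SUP -/
theorem sup (hBXD : BxdStmt) : SupStmt := by
  classical
  intro e k n' α he hk hα
  obtain ⟨n0, hn0⟩ := hBXD e n' (α / 2) (by positivity)
  set t : ℕ := max 1 n0 with ht
  have ht1 : 1 ≤ t := le_max_left _ _
  have htn : n0 ≤ t := le_max_right _ _
  have htR : (0 : ℝ) < t := by exact_mod_cast ht1
  have heR : (0 : ℝ) < e := by exact_mod_cast he
  refine ⟨α / (2 * e * (t : ℝ) ^ k), by positivity, ?_⟩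
  intro N Fe Fk hyp hFe
  rcases Nat.eq_zero_or_pos N with rfl | hN
  · rw [Nat.cast_zero, zero_pow hk.ne', mul_zero]
    positivity
  have hNR : (0 : ℝ) < N := by exact_mod_cast hN
  -- the number of functions
  let T : Type := Fin e × Fin t → Fin N
  have hT : (Finset.univ : Finset T).card = N ^ (e * t) := by
    rw [Finset.card_univ]
    simp [T]
  let ph : (Fin e → Fin t) → Fin e → Fin e × Fin t := fun η j => (j, η j)
  have hph : ∀ η, Function.Injective (ph η) := by
    intro η a b hab
    exact (Prod.mk.injEq _ _ _ _ ▸ hab : _ ∧ _).1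
  let ps : Fin e × (Fin k → Fin t) → Fin k → Fin e × Fin t := fun q i => (q.1, q.2 i)
  let R : T → (Fin e → Fin t) → Prop := fun G η => G ∘ ph η ∈ Fe
  let dens : T → ℕ := fun G => (Finset.univ.filter (fun η => R G η)).card
  let cnt : (Fin e → Fin t) → ℕ := fun η => (Finset.univ.filter (fun G : T => R G η)).card
  have hcnt : ∀ η, cnt η * N ^ e = Fe.ncard * N ^ (e * t) := by
    intro η
    have h := fibreCount (A := Fin N) (ph η) (hph η) Fe
    simpa [cnt, R] using h
  have hdc : ∑ G : T, dens G = ∑ η, cnt η := by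
    have h := Finset.sum_card_bipartiteAbove_eq_sum_card_bipartiteBelow (s := (Finset.univ : Finset T))
      (t := (Finset.univ : Finset (Fin e → Fin t))) R
    simpa [Finset.bipartiteAbove, Finset.bipartiteBelow, dens, cnt] using h
  have hcntR : ∀ η, α * (N : ℝ) ^ (e * t) ≤ (cnt η : ℝ) := by
    intro η
    have h1 : (cnt η : ℝ) * (N : ℝ) ^ e = (Fe.ncard : ℝ) * (N : ℝ) ^ (e * t) := by
      exact_mod_cast hcnt η
    have h2 : α * (N : ℝ) ^ (e * t) * (N : ℝ) ^ e ≤ (cnt η : ℝ) * (N : ℝ) ^ e := by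
      rw [h1]
      calc α * (N : ℝ) ^ (e * t) * (N : ℝ) ^ e = (α * (N : ℝ) ^ e) * (N : ℝ) ^ (e * t) := by ring
        _ ≤ (Fe.ncard : ℝ) * (N : ℝ) ^ (e * t) := by
            apply mul_le_mul_of_nonneg_right hFe
            positivity
    exact le_of_mul_le_mul_right h2 (by positivity)
  have hsum : α * (t : ℝ) ^ e * (N : ℝ) ^ (e * t) ≤ ∑ G : T, (dens G : ℝ) := by
    have h1 : (∑ G : T, (dens G : ℝ)) = ∑ η, (cnt η : ℝ) := by
      exact_mod_cast hdc
    rw [h1]
    calc α * (t : ℝ) ^ e * (N : ℝ) ^ (e * t) = ∑ _η : Fin e → Fin t, α * (N : ℝ) ^ (e * t) := by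
          rw [Finset.sum_const, Finset.card_univ]
          simp
          ring
      _ ≤ _ := Finset.sum_le_sum (fun η _ => hcntR η)
  have hdle : ∀ G, (dens G : ℝ) ≤ (t : ℝ) ^ e := by
    intro G
    have : dens G ≤ t ^ e := by
      calc dens G ≤ (Finset.univ : Finset (Fin e → Fin t)).card := Finset.card_filter_le _ _
        _ = t ^ e := by rw [Finset.card_univ]; simp
    exact_mod_cast this
  let B : Finset T := Finset.univ.filter (fun G => α / 2 * (t : ℝ) ^ e ≤ (dens G : ℝ))
  have hB : α / 2 * (N : ℝ) ^ (e * t) ≤ (B.card : ℝ) := by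
    have h1 : (∑ G : T, (dens G : ℝ)) ≤
        ∑ G : T, ((if G ∈ B then (t : ℝ) ^ e else 0) + α / 2 * (t : ℝ) ^ e) := by
      apply Finset.sum_le_sum
      intro G _
      by_cases hG : G ∈ B
      · rw [if_pos hG]
        have := hdle G
        have h0 : (0 : ℝ) ≤ α / 2 * (t : ℝ) ^ e := by positivity
        linarith
      · rw [if_neg hG]
        have : ¬ (α / 2 * (t : ℝ) ^ e ≤ (dens G : ℝ)) := by
          intro h
          apply hG
          simp only [B, Finset.mem_filter, Finset.mem_univ, true_and]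
          exact h
        linarith [not_le.mp this]
    have h2 : ∑ G : T, ((if G ∈ B then (t : ℝ) ^ e else 0) + α / 2 * (t : ℝ) ^ e) =
        (B.card : ℝ) * (t : ℝ) ^ e + (N : ℝ) ^ (e * t) * (α / 2 * (t : ℝ) ^ e) := by
      rw [Finset.sum_add_distrib, Finset.sum_const, hT, Finset.sum_ite_mem, Finset.univ_inter,
        Finset.sum_const, nsmul_eq_mul, nsmul_eq_mul, Nat.cast_pow]
    have h3 : α * (t : ℝ) ^ e * (N : ℝ) ^ (e * t) ≤
        (B.card : ℝ) * (t : ℝ) ^ e + (N : ℝ) ^ (e * t) * (α / 2 * (t : ℝ) ^ e) := by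
      linarith
    have h4 : (α / 2 * (N : ℝ) ^ (e * t)) * (t : ℝ) ^ e ≤ (B.card : ℝ) * (t : ℝ) ^ e := by
      nlinarith
    exact le_of_mul_le_mul_right h4 (by positivity)
  -- the pairs
  let Q : Finset (Fin e × (Fin k → Fin t)) := Finset.univ.filter (fun q => Function.Injective q.2)
  let W : Fin e × (Fin k → Fin t) → Finset T := fun q =>
    Finset.univ.filter (fun G : T => G ∘ ps q ∈ Fk)
  have hBQ : B ⊆ Q.biUnion W := by
    intro G hG
    have hG' : α / 2 * (t : ℝ) ^ e ≤ (dens G : ℝ) := by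
      simpa only [B, Finset.mem_filter, Finset.mem_univ, true_and] using hG
    have hE : α / 2 * (t : ℝ) ^ e ≤ (({η | R G η} : Set (Fin e → Fin t)).ncard : ℝ) := by
      have h : ({η | R G η} : Set (Fin e → Fin t)).ncard = dens G := by
        rw [Set.ncard_eq_toFinset_card']
        simp [dens]
      rw [h]
      exact hG'
    obtain ⟨s, hs, hsE⟩ := hn0 t htn {η | R G η} hE
    obtain ⟨j, l, hl, hlF⟩ := hyp (fun j a => G (j, s j a)) (fun η => hsE η)
    simp only [Finset.mem_biUnion]
    refine ⟨(j, fun i => s j (l i)), ?_, ?_⟩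
    · simp only [Q, Finset.mem_filter, Finset.mem_univ, true_and]
      exact (hs j).injective.comp hl
    · simp only [W, Finset.mem_filter, Finset.mem_univ, true_and]
      exact hlF
  have hW : ∀ q ∈ Q, ((W q).card : ℝ) * (N : ℝ) ^ k = (Fk.ncard : ℝ) * (N : ℝ) ^ (e * t) := by
    intro q hq
    have hq' : Function.Injective q.2 := by
      simpa only [Q, Finset.mem_filter, Finset.mem_univ, true_and] using hq
    have hps : Function.Injective (ps q) := by
      intro a b hab
      apply hq'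
      exact (Prod.mk.injEq _ _ _ _ ▸ hab : _ ∧ _).2
    have h := fibreCount (A := Fin N) (ps q) hps Fk
    have h' : (W q).card * N ^ k = Fk.ncard * N ^ (e * t) := by
      simpa [W] using h
    exact_mod_cast h'
  have hQc : (Q.card : ℝ) ≤ e * (t : ℝ) ^ k := by
    have : Q.card ≤ e * t ^ k := by
      calc Q.card ≤ (Finset.univ : Finset (Fin e × (Fin k → Fin t))).card :=
            Finset.card_filter_le _ _
        _ = e * t ^ k := by rw [Finset.card_univ]; simp
    exact_mod_cast this
  have hfin : (B.card : ℝ) * (N : ℝ) ^ k ≤ e * (t : ℝ) ^ k * ((Fk.ncard : ℝ) * (N : ℝ) ^ (e * t)) := by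
    have h1 : (B.card : ℝ) ≤ ∑ q ∈ Q, ((W q).card : ℝ) := by
      have h := (Finset.card_le_card hBQ).trans Finset.card_biUnion_le
      exact_mod_cast h
    calc (B.card : ℝ) * (N : ℝ) ^ k ≤ (∑ q ∈ Q, ((W q).card : ℝ)) * (N : ℝ) ^ k := by
          apply mul_le_mul_of_nonneg_right h1
          positivity
      _ = ∑ q ∈ Q, ((W q).card : ℝ) * (N : ℝ) ^ k := by rw [Finset.sum_mul]
      _ = ∑ _q ∈ Q, (Fk.ncard : ℝ) * (N : ℝ) ^ (e * t) := Finset.sum_congr rfl hW
      _ = (Q.card : ℝ) * ((Fk.ncard : ℝ) * (N : ℝ) ^ (e * t)) := by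
          rw [Finset.sum_const, nsmul_eq_mul]
      _ ≤ _ := by
          apply mul_le_mul_of_nonneg_right hQc
          positivity
  have h5 : α / 2 * (N : ℝ) ^ (e * t) * (N : ℝ) ^ k ≤
      e * (t : ℝ) ^ k * ((Fk.ncard : ℝ) * (N : ℝ) ^ (e * t)) := by
    refine le_trans ?_ hfin
    apply mul_le_mul_of_nonneg_right hB
    positivity
  have h6 : α / 2 * (N : ℝ) ^ k ≤ e * (t : ℝ) ^ k * (Fk.ncard : ℝ) := by
    have hpos : (0 : ℝ) < (N : ℝ) ^ (e * t) := by positivity
    refine le_of_mul_le_mul_right ?_ hpos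
    calc α / 2 * (N : ℝ) ^ k * (N : ℝ) ^ (e * t) = α / 2 * (N : ℝ) ^ (e * t) * (N : ℝ) ^ k := by ring
      _ ≤ _ := h5
      _ = _ := by ring
  have hpos2 : (0 : ℝ) < e * (t : ℝ) ^ k := by positivity
  have h7 : α / (2 * e * (t : ℝ) ^ k) * (N : ℝ) ^ k = (α / 2 * (N : ℝ) ^ k) / (e * (t : ℝ) ^ k) := by
    field_simp
  rw [h7, div_le_iff₀ hpos2]
  linarith

end Pool.Agent.FHQ.H86S
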